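import Pool.Agent.Run7.h275.RB0

set_option autoImplicit false
set_option linter.unusedVariables false

namespace Pool.Agent.Run7.h56.RB

open IsLocalRing Pool.Agent.W418.LU2 Pool.Agent.H918R2.Quad Pool.Agent.Run7.h275.RL Pool.Agent.Run7.h275.RB

/-- The kernel of a surjection of regular local rings is generated by a part of a regular system of parameters. -/
theorem exists_ind {B : Type} [CommRing B] [IsRegularLocalRing B] (J : Ideal B) [IsRegularLocalRing (B ⧸ J)] :
    ∃ (r : ℕ) (z : Fin r → B), Ind z ∧ Ideal.span (Set.range z) = J := by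
  classical
  have hne : J ≠ ⊤ := Ideal.Quotient.nontrivial_iff.1 inferInstance
  have hJ : J ≤ maximalIdeal B := IsLocalRing.le_maximalIdeal hne
  have hb : ∀ r : ℕ, ∀ z : Fin r → B, Ind z →
      r ≤ Module.finrank (ResidueField B) (CotangentSpace B) := by
    intro r z hz
    have h1 := ((ind_iff hz.1).1 hz).fintype_card_le_finrank
    rwa [Fintype.card_fin] at h1
  let p : ℕ → Prop := fun r => ∃ z : Fin r → B, Ind z ∧ ∀ i, z i ∈ J
  have hp0 : p 0 := ⟨Fin.elim0, ⟨fun i => i.elim0, fun c _ i => i.elim0⟩, fun i => i.elim0⟩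
  set n := Module.finrank (ResidueField B) (CotangentSpace B) with hn
  have hr := Nat.findGreatest_spec (P := p) (Nat.zero_le n) hp0
  set r := Nat.findGreatest p n with hrd
  obtain ⟨z, hz, hzJ⟩ := hr
  have hmax : ¬ p (r + 1) := by
    rintro ⟨z', hz', hz'J⟩
    have h1 := hb _ z' hz'
    have h2 := Nat.le_findGreatest (P := p) h1 ⟨z', hz', hz'J⟩
    rw [← hrd] at h2
    omega
  refine ⟨r, z, hz, le_antisymm ?_ ?_⟩
  · rw [Ideal.span_le]
    rintro _ ⟨i, rfl⟩
    exact hzJ i
  · have hfg : J.FG := J.fg_of_isNoetherianRing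
    refine Submodule.le_of_le_smul_of_le_jacobson_bot (I := maximalIdeal B) hfg
      (IsLocalRing.maximalIdeal_le_jacobson _) ?_
    intro j hj
    -- the family extended by `j` is not independent
    have h1 : ¬ Ind (Fin.cons j z : Fin (r + 1) → B) := by
      intro h
      apply hmax
      refine ⟨_, h, fun i => ?_⟩
      refine Fin.cases ?_ (fun i => ?_) i
      · exact hj
      · exact hzJ i
    unfold Ind at h1
    rw [not_and] at h1
    have h2 := h1 (fun i => by
      refine Fin.cases ?_ (fun i => ?_) i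
      · exact hJ hj
      · exact hJ (hzJ i))
    push Not at h2
    obtain ⟨c, hc, i, hi⟩ := h2
    rw [Fin.sum_univ_succ] at hc
    simp only [Fin.cons_zero, Fin.cons_succ] at hc
    have hc0 : c 0 ∉ maximalIdeal B := by
      intro h0
      have h3 : c 0 * j ∈ maximalIdeal B ^ 2 := by
        rw [pow_two]
        exact Ideal.mul_mem_mul h0 (hJ hj)
      have h4 : ∑ i : Fin r, c i.succ * z i ∈ maximalIdeal B ^ 2 := by
        have h5 := Ideal.sub_mem _ hc h3
        rwa [add_sub_cancel_left] at h5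
      have h5 := hz.2 (fun i => c i.succ) h4
      apply hi
      refine Fin.cases ?_ (fun i => ?_) i
      · exact h0
      · exact h5 i
    obtain ⟨u, hu⟩ : IsUnit (c 0) := by
      rwa [mem_maximalIdeal, mem_nonunits_iff, not_not] at hc0
    have h3 : j + ∑ i : Fin r, (↑u⁻¹ * c i.succ) * z i ∈ maximalIdeal B ^ 2 := by
      have h4 := Ideal.mul_mem_left _ (↑u⁻¹ : B) hc
      rw [← hu, mul_add, Units.inv_mul_cancel_left, Finset.mul_sum] at h4
      simpa only [mul_assoc] using h4
    have h4 : ∑ i : Fin r, (↑u⁻¹ * c i.succ) * z i ∈ Ideal.span (Set.range z) :=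
      Ideal.sum_mem _ fun i _ => Ideal.mul_mem_left _ _ (Ideal.subset_span ⟨i, rfl⟩)
    have h5 : j + ∑ i : Fin r, (↑u⁻¹ * c i.succ) * z i ∈ maximalIdeal B * J := by
      refine Pool.Agent.H379R3.inf_sq_le J ⟨?_, h3⟩
      refine Ideal.add_mem _ hj ?_
      exact Ideal.sum_mem _ fun i _ => Ideal.mul_mem_left _ _ (hzJ i)
    have h6 : j = (-∑ i : Fin r, (↑u⁻¹ * c i.succ) * z i) +
        (j + ∑ i : Fin r, (↑u⁻¹ * c i.succ) * z i) := by ring
    rw [h6]
    exact Submodule.add_mem_sup (Ideal.neg_mem_iff _ |>.2 h4) h5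

lemma bl_cl_le {F : Type} [Field F] {A P : Subring F} (hP : P ≤ A) {I : Ideal P} {x : F}
    (h : ∀ b : P, b ∈ I → (b : F) / x ∈ A) :
    Subring.closure ((P : Set F) ∪ {t | ∃ b : P, b ∈ I ∧ t = (b : F) / x}) ≤ A := by
  rw [Subring.closure_le]
  rintro t (ht | ⟨b, hb, rfl⟩)
  · exact hP ht
  · exact h b hb

theorem MON : S_MON := by
  classical
  intro F _ A P hA hP hreg I hRQ x hxI hx0 hxA
  unfold RQ at hRQ
  set Q := lo A P with hQ
  set J : Ideal Q := I.map (Subring.inclusion (le_lo A P)) with hJ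
  obtain ⟨r, z, hz, hzJ⟩ := exists_ind J
  have hQA : Q ≤ A := lo_le hP
  have hPQ : P ≤ Q := le_lo A P
  have hx0' : (x : F) ≠ 0 := fun h => hx0 (Subtype.ext h)
  set R : Subring F := Subring.closure ((P : Set F) ∪ {t | ∃ b : P, b ∈ I ∧ t = (b : F) / (x : F)}) with hR
  have hRA : R ≤ A := bl_cl_le hP hxA
  have hPR : P ≤ R := fun y hy => Subring.subset_closure (Or.inl hy)
  have hQT : Q ≤ lo A R := lo_mono hPR
  -- elements of `J` divided by `x`
  have hJT : ∀ j : Q, j ∈ J → (j : F) / (x : F) ∈ lo A R := by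
    intro j hj
    rw [hJ, Ideal.map] at hj
    induction hj using Submodule.span_induction with
    | mem y hy =>
      obtain ⟨b, hb, rfl⟩ := hy
      exact le_lo _ _ (Subring.subset_closure (Or.inr ⟨b, hb, rfl⟩))
    | zero =>
      change (0 : F) / (x : F) ∈ _
      rw [zero_div]
      exact Subring.zero_mem _
    | add a b _ _ ha hb =>
      change ((a : F) + (b : F)) / (x : F) ∈ _
      rw [add_div]
      exact Subring.add_mem _ ha hb
    | smul c a _ ha =>
      change ((c : F) * (a : F)) / (x : F) ∈ _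
      rw [mul_div_assoc]
      exact Subring.mul_mem _ (hQT c.2) ha
  have hTA : lo A R ≤ A := lo_le hRA
  have hzJ' : ∀ i, z i ∈ J := fun i => by
    rw [← hzJ]
    exact Ideal.subset_span ⟨i, rfl⟩
  have hz0 : ∀ i, (z i : F) ≠ 0 := fun i h => hz.ne_zero i (Subtype.ext h)
  -- the regular system of parameters
  have hzm : ∀ i, NU A (z i : F) := by
    intro i ⟨h0, h1⟩
    have h2 := hz.1 i
    rw [mem_maximalIdeal, mem_nonunits_iff] at h2
    exact h2 ((isUnit_lo_iff hP _).2 ⟨h0, h1⟩)
  have hzn : ∀ i, (z i : F)⁻¹ ∉ A := fun i h => hzm i ⟨hz0 i, h⟩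
  have hRP : RegP A Q (fun i => (z i : F)) :=
    { PA := hQA
      ne := hz0
      mem := fun i => (z i).2
      reg := hreg
      inv := fun y hy h0 h1 => inv_mem_lo hP hy h0 h1
      ind := by
        refine IndN.of_ind (id : Fin r → Fin r) Function.injective_id (fun i _ => ⟨i, rfl⟩) ?_
        exact hz }
  -- expansion of the elements of `I`
  have hexp : ∀ b : P, b ∈ I → ∃ c : Fin r → Q, (b : F) = ∑ i, (c i : F) * (z i : F) := by
    intro b hb
    have h1 : (Subring.inclusion (le_lo A P) b : Q) ∈ J := Ideal.mem_map_of_mem _ hb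
    rw [← hzJ, Ideal.mem_span_range_iff_exists_fun] at h1
    obtain ⟨c, hc⟩ := h1
    refine ⟨c, ?_⟩
    have h2 := congrArg (Q.subtype) hc
    rw [map_sum] at h2
    exact h2.symm
  obtain ⟨c, hc⟩ := hexp x hxI
  obtain ⟨j, hj⟩ : ∃ j, (x : F) / (z j : F) ∈ A := by
    by_contra hcon
    push Not at hcon
    refine not_NU_one (A := A) ?_
    have h1 : (1 : F) = ∑ i, (c i : F) * ((z i : F) / (x : F)) := by
      rw [← div_self hx0']
      nth_rewrite 1 [hc]
      rw [Finset.sum_div]
      exact Finset.sum_congr rfl fun i _ => by ring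
    rw [h1]
    refine NU.sum hA _ (fun i _ => ?_) (fun i _ => ?_)
    · exact A.mul_mem (hQA (c i).2) (hTA (hJT _ (hzJ' i)))
    · refine NU.mul (hQA (c i).2) ?_
      rintro ⟨h3, h4⟩
      rw [inv_div] at h4
      exact hcon i h4
  have hij : ∀ i, (z i : F) * (z j : F)⁻¹ ∈ A := by
    intro i
    have h1 : (z i : F) * (z j : F)⁻¹ = ((z i : F) / (x : F)) * ((x : F) / (z j : F)) := by
      have := hz0 j
      field_simp
    rw [h1]
    exact A.mul_mem (hTA (hJT _ (hzJ' i))) hj
  have hmain := regP_qt hA hRP j (hzn j) (Finset.univ.erase j) (fun i hi =>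
    ⟨Finset.ne_of_mem_erase hi, hzn i, hij i⟩)
  have hreg2 := hmain.reg
  set U : Subring F := Subring.closure ((Q : Set F) ∪ {t | ∃ i ∈ Finset.univ.erase j,
    t = (z i : F) * (z j : F)⁻¹}) with hU
  have hUA : U ≤ A := by
    rw [hU, Subring.closure_le]
    rintro t (ht | ⟨i, _, rfl⟩)
    · exact hQA ht
    · exact hij i
  have hQU : Q ≤ lo A U := fun y hy => le_lo _ _ (Subring.subset_closure (Or.inl hy))
  have hzU : ∀ i, (z i : F) * (z j : F)⁻¹ ∈ lo A U := by
    intro i
    by_cases hi : i = j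
    · rw [hi, mul_inv_cancel₀ (hz0 j)]
      exact Subring.one_mem _
    · exact le_lo _ _ (Subring.subset_closure (Or.inr ⟨i, Finset.mem_erase.2 ⟨hi, Finset.mem_univ _⟩, rfl⟩))
  have hIU : ∀ b : P, b ∈ I → (b : F) / (z j : F) ∈ lo A U := by
    intro b hb
    obtain ⟨c, hc⟩ := hexp b hb
    rw [hc, Finset.sum_div]
    refine Subring.sum_mem _ fun i _ => ?_
    rw [mul_div_assoc, div_eq_mul_inv]
    exact Subring.mul_mem _ (hQU (c i).2) (hzU i)
  have hxz : ((x : F) / (z j : F)) ≠ 0 := div_ne_zero hx0' (hz0 j)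
  have heq : lo A R = lo A U := by
    apply le_antisymm
    · refine lo_le_lo hUA ?_
      rw [hR, Subring.closure_le]
      rintro t (ht | ⟨b, hb, rfl⟩)
      · exact hQU (hPQ ht)
      · have h1 : (b : F) / (x : F) = ((b : F) / (z j : F)) * ((x : F) / (z j : F))⁻¹ := by
          have := hz0 j
          field_simp
        rw [h1]
        refine Subring.mul_mem _ (hIU b hb) (inv_mem_lo hUA (hIU x hxI) hxz ?_)
        rw [inv_div]
        exact hTA (hJT _ (hzJ' j))
    · refine lo_le_lo hRA ?_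
      rw [hU, Subring.closure_le]
      rintro t (ht | ⟨i, _, rfl⟩)
      · exact hQT ht
      · have h1 : (z i : F) * (z j : F)⁻¹ = ((z i : F) / (x : F)) * ((z j : F) / (x : F))⁻¹ := by
          have := hz0 j
          field_simp
        rw [h1]
        refine Subring.mul_mem _ (hJT _ (hzJ' i)) (inv_mem_lo hRA (hJT _ (hzJ' j)) ?_ ?_)
        · exact div_ne_zero (hz0 j) hx0'
        · rw [inv_div]
          exact hj
  unfold bl
  rw [← hR, heq]
  exact hreg2

end Pool.Agent.Run7.h56.RB
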