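import Pool.Agent.Run7.h56.RB.STEPa

set_option autoImplicit false
set_option linter.unusedVariables false

namespace Pool.Agent.Run7.h56.RB

open IsLocalRing Pool.Agent.W418.LU2 Pool.Agent.H918R2.Quad Pool.Agent.Run7.h275.RL Pool.Agent.Run7.h275.RB

section blow

variable {F : Type} [Field F] {A B : Subring F} {I : Ideal B}

lemma cl_le {x : F} (hB : B ≤ A) (h : ∀ b : B, b ∈ I → (b : F) / x ∈ A) :
    Subring.closure ((B : Set F) ∪ {t | ∃ b : B, b ∈ I ∧ t = (b : F) / x}) ≤ A := by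
  rw [Subring.closure_le]
  rintro t (ht | ⟨b, hb, rfl⟩)
  · exact hB ht
  · exact h b hb

lemma bl_le {x y : B} (hB : B ≤ A) (hx : x ∈ I) (hy : y ∈ I) (hx0 : (x : F) ≠ 0) (hy0 : (y : F) ≠ 0)
    (hxA : ∀ b : B, b ∈ I → (b : F) / x ∈ A) (hyA : ∀ b : B, b ∈ I → (b : F) / y ∈ A) :
    bl A B I x ≤ bl A B I y := by
  unfold bl
  refine lo_le_lo (cl_le hB hyA) ?_
  rw [Subring.closure_le]
  rintro t (ht | ⟨b, hb, rfl⟩)
  · exact le_lo _ _ (Subring.subset_closure (Or.inl ht))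
  · have h1 : (b : F) / (x : F) = ((b : F) / (y : F)) * ((x : F) / (y : F))⁻¹ := by
      field_simp
    rw [h1]
    refine Subring.mul_mem _ (le_lo _ _ (Subring.subset_closure (Or.inr ⟨b, hb, rfl⟩)))
      (inv_mem_lo (cl_le hB hyA) (le_lo _ _ (Subring.subset_closure (Or.inr ⟨x, hx, rfl⟩)))
        (div_ne_zero hx0 hy0) ?_)
    rw [inv_div]
    exact hxA y hy

lemma bl_congr {x y : B} (hB : B ≤ A) (hx : x ∈ I) (hy : y ∈ I) (hx0 : (x : F) ≠ 0) (hy0 : (y : F) ≠ 0)
    (hxA : ∀ b : B, b ∈ I → (b : F) / x ∈ A) (hyA : ∀ b : B, b ∈ I → (b : F) / y ∈ A) :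
    bl A B I x = bl A B I y :=
  le_antisymm (bl_le hB hx hy hx0 hy0 hxA hyA) (bl_le hB hy hx hy0 hx0 hyA hxA)

lemma cl_eq {m : ℕ} {x : Fin m → F} (l : Fin m) (hx : ∀ j, ∃ b : B, b ∈ I ∧ (b : F) = x j)
    (hI : ∀ b : B, b ∈ I → ∃ c : Fin m → B, (b : F) = ∑ j, (c j : F) * x j) :
    Subring.closure ((B : Set F) ∪ Set.range fun j => x j / x l) =
      Subring.closure ((B : Set F) ∪ {t | ∃ b : B, b ∈ I ∧ t = (b : F) / x l}) := by
  apply le_antisymm
  · rw [Subring.closure_le]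
    rintro t (ht | ⟨j, rfl⟩)
    · exact Subring.subset_closure (Or.inl ht)
    · obtain ⟨b, hb, hbx⟩ := hx j
      exact Subring.subset_closure (Or.inr ⟨b, hb, by rw [hbx]⟩)
  · rw [Subring.closure_le]
    rintro t (ht | ⟨b, hb, rfl⟩)
    · exact Subring.subset_closure (Or.inl ht)
    · obtain ⟨c, hc⟩ := hI b hb
      rw [hc, Finset.sum_div]
      refine Subring.sum_mem _ fun j _ => ?_
      rw [mul_div_assoc]
      exact Subring.mul_mem _ (Subring.subset_closure (Or.inl (c j).2))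
        (Subring.subset_closure (Or.inr ⟨j, rfl⟩))

end blow

section rq

variable {S F : Type} [CommRing S] [IsDomain S] [Field F] {O : Type} [CommRing O] [Algebra O (FractionRing S)]
  [Algebra O F]

theorem rq_of {p : Pres S F} {n : ℕ} {B : Subring F} (h : p.Ok O n B) (𝔭 : Ideal B) (V : ValuationSubring F)
    (hBV : B ≤ V.toSubring) (hRQ : RQ V.toSubring B 𝔭) :
    RQ (AA (FractionRing S) p.φ V) p.P
      (Ideal.span {s : p.P | ∃ w : B, w ∈ 𝔭 ∧ Pr p.φ (s : FractionRing S) (w : F)}) := by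
  classical
  set A := AA (FractionRing S) p.φ V with hA
  have hPA : p.P ≤ A := by
    intro s hs
    obtain ⟨v, hv, h1⟩ := h.pr s hs
    exact ⟨v, hBV hv, h1⟩
  set 𝔓 : Ideal p.P := Ideal.span {s : p.P | ∃ w : B, w ∈ 𝔭 ∧ Pr p.φ (s : FractionRing S) (w : F)} with h𝔓
  set R := lo A p.P with hR
  set R' := lo V.toSubring B with hR'
  have hRA : R ≤ A := lo_le hPA
  have himR : im p.φ R = R' := by
    rw [hR, hR', im_lo hPA, h.im]
  let θ : R →+* R' := (prA.comp (Subring.inclusion hRA)).codRestrict R' (by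
    intro y
    rw [← himR]
    exact ⟨y, y.2, prA_spec (Subring.inclusion hRA y)⟩)
  have hθ : ∀ y : R, Pr p.φ (y : FractionRing S) (θ y : F) := fun y => prA_spec (Subring.inclusion hRA y)
  have hθs : Function.Surjective θ := by
    rintro ⟨w, hw⟩
    rw [← himR] at hw
    obtain ⟨z, hz, hzw⟩ := hw
    exact ⟨⟨z, hz⟩, Subtype.ext ((hθ ⟨z, hz⟩).unique hzw)⟩
  set I' : Ideal R := 𝔓.map (Subring.inclusion (le_lo A p.P)) with hI'
  set J' : Ideal R' := 𝔭.map (Subring.inclusion (le_lo V.toSubring B)) with hJ'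
  have h1 : I' ≤ J'.comap θ := by
    rw [hI', Ideal.map_le_iff_le_comap]
    intro s hs
    obtain ⟨w, hw, hsw⟩ := (mem_P_iff h 𝔭 s).1 hs
    rw [Ideal.mem_comap, Ideal.mem_comap]
    have h2 : θ (Subring.inclusion (le_lo A p.P) s) = Subring.inclusion (le_lo V.toSubring B) w :=
      Subtype.ext ((hθ _).unique hsw)
    rw [h2]
    exact Ideal.mem_map_of_mem _ hw
  have h2 : ∀ v : R', v ∈ J' → ∃ i : R, i ∈ I' ∧ θ i = v := by
    intro v hv
    rw [hJ', Ideal.map] at hv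
    induction hv using Submodule.span_induction with
    | mem y hy =>
      obtain ⟨b, hb, rfl⟩ := hy
      have h3 : (b : F) ∈ im p.φ p.P := by rw [h.im]; exact b.2
      obtain ⟨s, hs, hsb⟩ := h3
      refine ⟨Subring.inclusion (le_lo A p.P) ⟨s, hs⟩, Ideal.mem_map_of_mem _
        ((mem_P_iff h 𝔭 ⟨s, hs⟩).2 ⟨b, hb, hsb⟩), Subtype.ext ((hθ _).unique hsb)⟩
    | zero => exact ⟨0, I'.zero_mem, map_zero θ⟩
    | add a b _ _ ha hb =>
      obtain ⟨i, hi, h3⟩ := ha
      obtain ⟨i', hi', h3'⟩ := hb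
      exact ⟨i + i', I'.add_mem hi hi', by rw [map_add, h3, h3']⟩
    | smul c a _ ha =>
      obtain ⟨i, hi, h3⟩ := ha
      obtain ⟨ρ, hρ⟩ := hθs c
      exact ⟨ρ * i, I'.mul_mem_left _ hi, by rw [map_mul, hρ, h3]; rfl⟩
  have h3 : ∀ k : R, θ k = 0 → k ∈ I' := by
    rintro ⟨k, a, ha, b, hb, hb0, hbA, rfl⟩ hk
    have hka : Pr p.φ a 0 := by
      have h4 := hθ ⟨a * b⁻¹, a, ha, b, hb, hb0, hbA, rfl⟩
      rw [hk] at h4
      obtain ⟨v, hv, h5⟩ := h.pr b hb
      have h6 := h4.mul h5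
      change Pr p.φ (a * b⁻¹ * b) ((0 : F) * v) at h6
      rwa [mul_assoc, inv_mul_cancel₀ hb0, mul_one, zero_mul] at h6
    have hbR : b⁻¹ ∈ R := inv_mem_lo hPA (le_lo _ _ hb) hb0 hbA
    have h5 : (⟨a * b⁻¹, a, ha, b, hb, hb0, hbA, rfl⟩ : R) =
        ⟨b⁻¹, hbR⟩ * Subring.inclusion (le_lo A p.P) ⟨a, ha⟩ := Subtype.ext (mul_comm _ _)
    rw [h5]
    exact I'.mul_mem_left _ (Ideal.mem_map_of_mem _ ((mem_P_iff h 𝔭 ⟨a, ha⟩).2 ⟨0, 𝔭.zero_mem, hka⟩))
  let ψ : R →+* R' ⧸ J' := (Ideal.Quotient.mk J').comp θ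
  have hψs : Function.Surjective ψ := Ideal.Quotient.mk_surjective.comp hθs
  have hk : RingHom.ker ψ = I' := by
    ext y
    rw [RingHom.mem_ker]
    change Ideal.Quotient.mk J' (θ y) = 0 ↔ _
    rw [Ideal.Quotient.eq_zero_iff_mem]
    constructor
    · intro hy
      obtain ⟨i, hi, h4⟩ := h2 _ hy
      have h5 := h3 (y - i) (by rw [map_sub, h4, sub_self])
      have h6 := I'.add_mem h5 hi
      rwa [sub_add_cancel] at h6
    · intro hy
      exact h1 hy
  have hreg : IsRegularLocalRing (R' ⧸ J') := hRQ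
  have hfin : IsRegularLocalRing (R ⧸ RingHom.ker ψ) :=
    IsRegularLocalRing.of_ringEquiv (RingHom.quotientKerEquivOfSurjective hψs).symm
  rw [hk] at hfin
  exact hfin

end rq

theorem STEP : S_STEP := by
  classical
  intro hMON O S F _ _ _ _ _ _ _ p n B h 𝔭 _ a i₀ wa ha hwa hwap ⟨N, hN1, hN2⟩
  have hnoeth : IsNoetherianRing p.P := fgo_noeth h.fg
  set 𝔓 : Ideal p.P := Ideal.span {s : p.P | ∃ w : B, w ∈ 𝔭 ∧ Pr p.φ (s : FractionRing S) (w : F)} with h𝔓
  obtain ⟨m, x, hx⟩ : ∃ (m : ℕ) (x : Fin m → p.P), Submodule.span p.P (Set.range x) = 𝔓 :=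
    Submodule.fg_iff_exists_fin_generating_family.1 (IsNoetherian.noetherian 𝔓)
  have hxm : ∀ j, x j ∈ 𝔓 := fun j => by
    rw [← hx]
    exact Submodule.subset_span ⟨j, rfl⟩
  choose wv hwv hxw using fun j => (mem_P_iff h 𝔭 (x j)).1 (hxm j)
  have hsp : ∀ s : p.P, s ∈ 𝔓 → ∃ c : Fin m → p.P,
      (s : FractionRing S) = ∑ j, (c j : FractionRing S) * (x j : FractionRing S) := by
    intro s hs
    rw [← hx] at hs
    obtain ⟨c, hc⟩ := Ideal.mem_span_range_iff_exists_fun.1 hs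
    refine ⟨c, ?_⟩
    have h2 := congrArg (p.P.subtype) hc
    rw [map_sum] at h2
    exact h2.symm
  have H : Hy p B 𝔭 (fun j => (x j : FractionRing S)) (fun j => (wv j : F)) a i₀ wa N :=
    { xP := fun j => (x j).2
      wB := fun j => ⟨wv j, hwv j, rfl⟩
      xw := hxw
      sp := fun s hs => hsp s ((mem_P_iff h 𝔭 s).2 hs)
      aP := ha
      hwa := hwa
      wap := hwap
      N1 := hN1
      N2 := hN2 }
  -- generation of `𝔭`
  have hgen : ∀ b : B, b ∈ 𝔭 → ∃ d : Fin m → B, (b : F) = ∑ j, (d j : F) * (wv j : F) := by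
    intro b hb
    have h3 : (b : F) ∈ im p.φ p.P := by rw [h.im]; exact b.2
    obtain ⟨s, hs, hsb⟩ := h3
    obtain ⟨c, hc⟩ := hsp ⟨s, hs⟩ ((mem_P_iff h 𝔭 ⟨s, hs⟩).2 ⟨b, hb, hsb⟩)
    choose d hd hcd using fun j => h.pr (c j) (c j).2
    refine ⟨fun j => ⟨d j, hd j⟩, ?_⟩
    have h4 := Pr.sum (φ := p.φ) (Finset.univ : Finset (Fin m))
      (z := fun j => (c j : FractionRing S) * (x j : FractionRing S))
      (w := fun j => d j * (wv j : F)) fun j _ => (hcd j).mul (hxw j)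
    change s = _ at hc
    rw [← hc] at h4
    exact hsb.unique h4
  let T := {l : Fin m // (wv l : F) ≠ 0}
  let ε : Fin (Fintype.card T) ≃ T := (Fintype.equivFin T).symm
  refine ⟨Fintype.card T, fun l => nx p n (fun j => (x j : FractionRing S)) (fun j => (wv j : F)) (ε l).1 i₀
    (N : FractionRing S) (wa : F), fun l => nB B (fun j => (wv j : F)) (ε l).1,
    fun l => ⟨ok_next h H _ (ε l).2, rfl⟩, ?_⟩
  intro V hV h𝔭V hwaV hRQ y hy hy0 hyV
  have hy0' : (y : F) ≠ 0 := fun h => hy0 (Subtype.ext h)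
  have hBV := hV.BV
  obtain ⟨dy, hdy⟩ := hgen y hy
  have hne : (Finset.univ : Finset (Fin m)).Nonempty := by
    rw [Finset.nonempty_iff_ne_empty]
    intro h0
    rw [h0, Finset.sum_empty] at hdy
    exact hy0' hdy
  obtain ⟨l, -, hlmax⟩ := Finset.exists_max_image Finset.univ (fun j => V.valuation (wv j : F)) hne
  have hl0 : (wv l : F) ≠ 0 := by
    intro h0
    apply hy0'
    rw [hdy]
    refine Finset.sum_eq_zero fun j _ => ?_
    have h1 := hlmax j (Finset.mem_univ j)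
    rw [h0, map_zero] at h1
    have h2 : V.valuation (wv j : F) = 0 := le_antisymm h1 zero_le
    rw [(map_eq_zero V.valuation).1 h2, mul_zero]
  have hlj : ∀ j, (wv j : F) / (wv l : F) ∈ V := by
    intro j
    rw [← V.valuation_le_one_iff, map_div₀]
    exact div_le_one_of_le₀ (hlmax j (Finset.mem_univ j)) zero_le
  have hlV : ∀ b : B, b ∈ 𝔭 → (b : F) / (wv l : F) ∈ V := by
    intro b hb
    obtain ⟨d, hd⟩ := hgen b hb
    rw [hd, Finset.sum_div]
    refine V.toSubring.sum_mem fun j _ => ?_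
    rw [mul_div_assoc]
    exact V.mul_mem _ _ (hBV (d j).2) (hlj j)
  have hBl : Subring.closure ((B : Set F) ∪ Set.range fun j => (wv j : F) / (wv l : F)) =
      Subring.closure ((B : Set F) ∪ {t | ∃ b : B, b ∈ 𝔭 ∧ t = (b : F) / (wv l : F)}) :=
    cl_eq l (fun j => ⟨wv j, hwv j, rfl⟩) hgen
  have hPl : Subring.closure ((p.P : Set (FractionRing S)) ∪ Set.range fun j =>
      (x j : FractionRing S) / (x l : FractionRing S)) =
      Subring.closure ((p.P : Set (FractionRing S)) ∪ {t | ∃ b : p.P, b ∈ 𝔓 ∧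
        t = (b : FractionRing S) / (x l : FractionRing S)}) :=
    cl_eq (x := fun j => (x j : FractionRing S)) l (fun j => ⟨x j, hxm j, rfl⟩) hsp
  have hPA : p.P ≤ AA (FractionRing S) p.φ V := by
    intro s hs
    obtain ⟨v, hv, h1⟩ := h.pr s hs
    exact ⟨v, hBV hv, h1⟩
  have hxl0 : (x l : FractionRing S) ≠ 0 := (hxw l).ne_zero hl0
  have hwa0 : (wa : F) ≠ 0 := by
    intro h0
    apply hwap
    have h1 : wa = 0 := Subtype.ext h0
    rw [h1]
    exact 𝔭.zero_mem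
  have hεl : (ε (ε.symm ⟨l, hl0⟩)).1 = l := by rw [Equiv.apply_symm_apply]
  refine ⟨ε.symm ⟨l, hl0⟩, ?_, ?_⟩
  · simp only [hεl]
    refine { BV := ?_, uV := ?_, zV := ?_, reg := ?_ }
    · change Subring.closure ((B : Set F) ∪ Set.range fun j => (wv j : F) / (wv l : F)) ≤ V.toSubring
      rw [Subring.closure_le]
      rintro t (ht | ⟨j, rfl⟩)
      · exact hBV ht
      · exact hlj j
    · change ((wa : F) * p.u)⁻¹ ∈ V
      rw [mul_inv]
      refine V.mul_mem _ _ ?_ hV.uV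
      rw [val_lt_iff hwa0, not_not] at hwaV
      exact hwaV
    · intro i hi
      change V.valuation (Function.update p.z n (wv l : F) i) < 1
      by_cases hin : i = n
      · subst hin
        rw [Function.update_self]
        exact h𝔭V _ (hwv l)
      · rw [Function.update_of_ne hin]
        exact hV.zV i (by omega)
    · change IsRegularLocalRing (lo (AA (FractionRing S) p.φ V) (Subring.closure
        ((p.P : Set (FractionRing S)) ∪ Set.range fun j => (x j : FractionRing S) / (x l : FractionRing S))))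
      rw [hPl]
      refine hMON (FractionRing S) (AA (FractionRing S) p.φ V) p.P loc_AA hPA hV.reg 𝔓
        (rq_of h 𝔭 V hBV hRQ) (x l) (hxm l) (fun h0 => hxl0 (by rw [h0]; rfl)) ?_
      intro b hb
      obtain ⟨w, hw, hbw⟩ := (mem_P_iff h 𝔭 b).1 hb
      refine ⟨(w : F) / (wv l : F), hlV w hw, ?_⟩
      rw [div_eq_mul_inv, div_eq_mul_inv]
      exact hbw.mul ((hxw l).inv hl0)
  · simp only [hεl]
    change lo V.toSubring (Subring.closure ((B : Set F) ∪ Set.range fun j => (wv j : F) / (wv l : F))) = _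
    rw [hBl]
    exact bl_congr (x := wv l) (y := y) hBV (hwv l) hy hl0 hy0' hlV hyV

end Pool.Agent.Run7.h56.RB
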