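import Pool.Agent.Run7.h275.RB0

set_option autoImplicit false
set_option linter.unusedVariables false

namespace Pool.Agent.Run7.h56.RB

open IsLocalRing Pool.Agent.W418.LU2 Pool.Agent.H918R2.Quad Pool.Agent.Run7.h275.RL Pool.Agent.Run7.h275.RB

section fgo

variable {O F : Type} [CommRing O] [Field F] [Algebra O F]

lemma fgo_closure {B : Subring F} (h : FGO O B) {m : ℕ} (t : Fin m → F) :
    FGO O (Subring.closure ((B : Set F) ∪ Set.range t)) := by
  classical
  obtain ⟨s, rfl⟩ := h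
  refine ⟨s ∪ Finset.univ.image t, ?_⟩
  apply le_antisymm
  · let C : Subalgebra O F :=
      { Subring.closure (((Algebra.adjoin O (s : Set F)).toSubring : Set F) ∪ Set.range t) with
        algebraMap_mem' := fun o => Subring.subset_closure
          (Or.inl ((Algebra.adjoin O (s : Set F)).algebraMap_mem o)) }
    have : Algebra.adjoin O ((s ∪ Finset.univ.image t : Finset F) : Set F) ≤ C := Algebra.adjoin_le (by
      intro y hy
      rw [Finset.mem_coe, Finset.mem_union] at hy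
      rcases hy with hy | hy
      · exact Subring.subset_closure (Or.inl (Algebra.subset_adjoin hy))
      · obtain ⟨j, -, rfl⟩ := Finset.mem_image.1 hy
        exact Subring.subset_closure (Or.inr ⟨j, rfl⟩))
    exact this
  · rw [Subring.closure_le]
    rintro y (hy | ⟨j, rfl⟩)
    · refine Algebra.adjoin_mono (R := O) ?_ hy
      intro y hy
      exact Finset.mem_coe.2 (Finset.mem_union_left _ hy)
    · exact Algebra.subset_adjoin (Finset.mem_coe.2 (Finset.mem_union_right _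
        (Finset.mem_image_of_mem _ (Finset.mem_univ j))))

lemma fgo_noeth [IsNoetherianRing O] {B : Subring F} (h : FGO O B) : IsNoetherianRing B := by
  obtain ⟨s, rfl⟩ := h
  have : Algebra.FiniteType O (Algebra.adjoin O (s : Set F)) :=
    (Subalgebra.fg_iff_finiteType _).1 (Subalgebra.fg_def.2 ⟨_, s.finite_toSet, rfl⟩)
  exact Algebra.FiniteType.isNoetherianRing O (Algebra.adjoin O (s : Set F))

end fgo

section vr

variable {S L K : Type} [CommRing S] [IsDomain S] [Field L] [Algebra S L] [IsFractionRing S L]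
  [Field K] {φ : S →+* K} {D : S → K}

/-- The elements with values in `B`. -/
def VR (L : Type) [Field L] [Algebra S L] [IsFractionRing S L] (φ : S →+* K) (B : Subring K) : Subring L where
  carrier := {z | ∃ w ∈ B, Pr φ z w}
  mul_mem' := by
    rintro z z' ⟨w, hw, h⟩ ⟨w', hw', h'⟩
    exact ⟨_, B.mul_mem hw hw', h.mul h'⟩
  one_mem' := ⟨1, B.one_mem, Pr.one⟩
  add_mem' := by
    rintro z z' ⟨w, hw, h⟩ ⟨w', hw', h'⟩
    exact ⟨_, B.add_mem hw hw', h.add h'⟩
  zero_mem' := ⟨0, B.zero_mem, Pr.zero⟩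
  neg_mem' := by
    rintro z ⟨w, hw, h⟩
    exact ⟨_, B.neg_mem hw, h.neg⟩

/-- The elements with values and bounded derivatives in `B`. -/
noncomputable def BR (L : Type) [Field L] [Algebra S L] [IsFractionRing S L] (B : Subring K) (hD : Der φ D) (C : K) :
    Subring L where
  carrier := {z | ∃ w ∈ B, Pr φ z w ∧ C * dd φ D z ∈ B}
  mul_mem' := by
    rintro z z' ⟨w, hw, h, h1⟩ ⟨w', hw', h', h1'⟩
    refine ⟨_, B.mul_mem hw hw', h.mul h', ?_⟩
    rw [dd_mul hD h h']
    have h2 : C * (w * dd φ D z' + w' * dd φ D z) = w * (C * dd φ D z') + w' * (C * dd φ D z) := by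
      ring
    rw [h2]
    exact B.add_mem (B.mul_mem hw h1') (B.mul_mem hw' h1)
  one_mem' := ⟨1, B.one_mem, Pr.one, by rw [dd_one hD, mul_zero]; exact B.zero_mem⟩
  add_mem' := by
    rintro z z' ⟨w, hw, h, h1⟩ ⟨w', hw', h', h1'⟩
    refine ⟨_, B.add_mem hw hw', h.add h', ?_⟩
    rw [dd_add hD h h', mul_add]
    exact B.add_mem h1 h1'
  zero_mem' := ⟨0, B.zero_mem, Pr.zero, by rw [dd_zero hD, mul_zero]; exact B.zero_mem⟩
  neg_mem' := by
    rintro z ⟨w, hw, h, h1⟩
    refine ⟨_, B.neg_mem hw, h.neg, ?_⟩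
    rw [dd_neg hD h, mul_neg]
    exact B.neg_mem h1

end vr

section step

variable {S F : Type} [CommRing S] [IsDomain S] [Field F]

/-- The presentation of a chart of the blowing-up. -/
noncomputable def nx (p : Pres S F) (n : ℕ) {m : ℕ} (x : Fin m → FractionRing S) (w : Fin m → F) (l : Fin m)
    (i₀ : Fin p.r) (N : FractionRing S) (wa : F) : Pres S F where
  φ := p.φ
  r := p.r
  D := p.D
  hD := p.hD
  f₀ := p.f₀
  P := Subring.closure ((p.P : Set (FractionRing S)) ∪ Set.range fun j => x j / x l)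
  f := fun i => if i = i₀ then N * ((x l)⁻¹ * (x l)⁻¹) else p.f i * (x l)⁻¹
  z := Function.update p.z n (w l)
  u := wa * p.u

/-- The chart of the blowing-up. -/
def nB (B : Subring F) {m : ℕ} (w : Fin m → F) (l : Fin m) : Subring F :=
  Subring.closure ((B : Set F) ∪ Set.range fun j => w j / w l)

/-- The assumptions. -/
structure Hy (p : Pres S F) (B : Subring F) (𝔭 : Ideal B) {m : ℕ} (x : Fin m → FractionRing S) (w : Fin m → F)
    (a : Fin p.r → FractionRing S) (i₀ : Fin p.r) (wa : B) (N : p.P) : Prop where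
  xP : ∀ j, x j ∈ p.P
  wB : ∀ j, ∃ b : B, b ∈ 𝔭 ∧ (b : F) = w j
  xw : ∀ j, Pr p.φ (x j) (w j)
  sp : ∀ s : p.P, (∃ b : B, b ∈ 𝔭 ∧ Pr p.φ (s : FractionRing S) (b : F)) →
    ∃ c : Fin m → p.P, (s : FractionRing S) = ∑ j, (c j : FractionRing S) * x j
  aP : ∀ i, a i ∈ p.P
  hwa : Pr p.φ (a i₀) (wa : F)
  wap : wa ∉ 𝔭
  N1 : (N : FractionRing S) = ∑ i, a i * p.f i
  N2 : N ∈ (Ideal.span {s : p.P | ∃ w : B, w ∈ 𝔭 ∧ Pr p.φ (s : FractionRing S) (w : F)}) ^ 2

variable {O : Type} [CommRing O] [Algebra O (FractionRing S)] [Algebra O F]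

lemma mem_P_iff {p : Pres S F} {n : ℕ} {B : Subring F} (h : p.Ok O n B) (𝔭 : Ideal B) (s : p.P) :
    s ∈ Ideal.span {s : p.P | ∃ w : B, w ∈ 𝔭 ∧ Pr p.φ (s : FractionRing S) (w : F)} ↔
      ∃ w : B, w ∈ 𝔭 ∧ Pr p.φ (s : FractionRing S) (w : F) := by
  constructor
  · intro hs
    induction hs using Submodule.span_induction with
    | mem y hy => exact hy
    | zero => exact ⟨0, 𝔭.zero_mem, Pr.zero⟩
    | add a b _ _ ha hb =>
      obtain ⟨w, hw, h1⟩ := ha
      obtain ⟨w', hw', h1'⟩ := hb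
      exact ⟨w + w', 𝔭.add_mem hw hw', h1.add h1'⟩
    | smul c a _ ha =>
      obtain ⟨w, hw, h1⟩ := ha
      obtain ⟨wc, hwc, h2⟩ := h.pr c c.2
      exact ⟨⟨wc, hwc⟩ * w, 𝔭.mul_mem_left _ hw, h2.mul h1⟩
  · intro hs
    exact Ideal.subset_span hs

/-- The presentation of the chart. -/
theorem ok_next {p : Pres S F} {n : ℕ} {B : Subring F} (h : p.Ok O n B) {𝔭 : Ideal B} {m : ℕ}
    {x : Fin m → FractionRing S} {w : Fin m → F}
    {a : Fin p.r → FractionRing S} {i₀ : Fin p.r} {wa : B} {N : p.P} (H : Hy p B 𝔭 x w a i₀ wa N)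
    (l : Fin m) (hl : w l ≠ 0) :
    (nx p n x w l i₀ (N : FractionRing S) (wa : F)).Ok O (n + 1) (nB B w l) := by
  classical
  set P' : Subring (FractionRing S) :=
    Subring.closure ((p.P : Set (FractionRing S)) ∪ Set.range fun j => x j / x l) with hP'
  set B' : Subring F := Subring.closure ((B : Set F) ∪ Set.range fun j => w j / w l) with hB'
  set z := x l with hz
  set e := w l with he
  have hwa0 : (wa : F) ≠ 0 := by
    intro h0
    apply H.wap
    have h1 : wa = 0 := Subtype.ext h0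
    rw [h1]
    exact 𝔭.zero_mem
  have hze : Pr p.φ z e := H.xw l
  have hz0 : z ≠ 0 := hze.ne_zero hl
  have hzi : Pr p.φ z⁻¹ e⁻¹ := hze.inv hl
  have hPP' : p.P ≤ P' := fun y hy => Subring.subset_closure (Or.inl hy)
  have hBB' : B ≤ B' := fun y hy => Subring.subset_closure (Or.inl hy)
  have hxd : ∀ j, Pr p.φ (x j / z) (w j / e) := fun j => by
    rw [div_eq_mul_inv, div_eq_mul_inv]
    exact (H.xw j).mul hzi
  have hpr : P' ≤ VR (FractionRing S) p.φ B' := by
    rw [hP', Subring.closure_le]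
    rintro t (ht | ⟨j, rfl⟩)
    · obtain ⟨v, hv, h1⟩ := h.pr t ht
      exact ⟨v, hBB' hv, h1⟩
    · exact ⟨w j / e, Subring.subset_closure (Or.inr ⟨j, rfl⟩), hxd j⟩
  have heB : e ∈ B := by
    obtain ⟨b, -, hb⟩ := H.wB l
    rw [he, ← hb]
    exact b.2
  have hZ : (nx p n x w l i₀ (N : FractionRing S) (wa : F)).Z (n + 1) = p.Z n * e := by
    change ∏ i ∈ Finset.range (n + 1), Function.update p.z n (w l) i = (∏ i ∈ Finset.range n, p.z i) * e
    rw [Finset.prod_range_succ, Function.update_self]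
    congr 1
    refine Finset.prod_congr rfl fun i hi => ?_
    rw [Function.update_of_ne (Finset.mem_range.1 hi).ne]
  -- division of the elements of the ideal
  have hdiv : ∀ s : p.P, (∃ b : B, b ∈ 𝔭 ∧ Pr p.φ (s : FractionRing S) (b : F)) →
      (s : FractionRing S) * z⁻¹ ∈ P' := by
    intro s hs
    obtain ⟨c, hc⟩ := H.sp s hs
    rw [hc, Finset.sum_mul]
    refine Subring.sum_mem _ fun j _ => ?_
    rw [mul_assoc, ← div_eq_mul_inv]
    exact Subring.mul_mem _ (hPP' (c j).2) (Subring.subset_closure (Or.inr ⟨j, rfl⟩))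
  -- the equations
  set NF : FractionRing S := (N : FractionRing S) with hNF
  have hav : ∀ k, ∃ v ∈ B, Pr p.φ (a k) v := fun k => h.pr _ (H.aP k)
  choose va hvaB hva using hav
  have hva0 : va i₀ = (wa : F) := (hva i₀).unique H.hwa
  have ha0 : a i₀ ≠ 0 := H.hwa.ne_zero hwa0
  have hNF0 : Pr p.φ NF 0 := by
    have h1 := Pr.sum (φ := p.φ) (Finset.univ : Finset (Fin p.r)) (z := fun k => a k * p.f k)
      (w := fun k => va k * 0) fun k _ => (hva k).mul (h.f0 k)
    rw [hNF, H.N1]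
    simpa using h1
  let f' : Fin p.r → FractionRing S := fun i => if i = i₀ then NF * (z⁻¹ * z⁻¹) else p.f i * z⁻¹
  have hf'i0 : f' i₀ = NF * (z⁻¹ * z⁻¹) := if_pos rfl
  have hf'i : ∀ i, i ≠ i₀ → f' i = p.f i * z⁻¹ := fun i hi => if_neg hi
  have hdf : ∀ j i, i ≠ i₀ → dd p.φ (p.D j) (f' i) = e⁻¹ * dd p.φ (p.D j) (p.f i) := by
    intro j i hi
    rw [hf'i i hi, dd_mul (p.hD j) (h.f0 i) hzi, zero_mul, zero_add]
  have hdN : ∀ j, dd p.φ (p.D j) NF = ∑ k, va k * dd p.φ (p.D j) (p.f k) := by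
    intro j
    rw [hNF, H.N1, dd_sum (p.hD j) _ (w := fun k => va k * 0) fun k _ => (hva k).mul (h.f0 k)]
    refine Finset.sum_congr rfl fun k _ => ?_
    rw [dd_mul (p.hD j) (hva k) (h.f0 k), zero_mul, add_zero]
  have hdf0 : ∀ j, dd p.φ (p.D j) (f' i₀) = e⁻¹ * e⁻¹ * ∑ k, va k * dd p.φ (p.D j) (p.f k) := by
    intro j
    rw [hf'i0, dd_mul (p.hD j) hNF0 (hzi.mul hzi), zero_mul, zero_add, hdN]
  have hdet : (Matrix.of fun i j => dd p.φ (p.D j) (f' i)).det = e⁻¹ ^ (p.r + 1) *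
      (va i₀ * (Matrix.of fun i j => dd p.φ (p.D j) (p.f i)).det) := by
    set M : Matrix (Fin p.r) (Fin p.r) F := Matrix.of fun i j => dd p.φ (p.D j) (p.f i) with hMdef
    have h1 : (Matrix.of fun i j => dd p.φ (p.D j) (f' i)) = Matrix.of fun i j =>
        (e⁻¹ * if i = i₀ then e⁻¹ else 1) * (M.updateRow i₀ (∑ k, (va k) • M k)) i j := by
      ext i j
      rw [Matrix.of_apply, Matrix.of_apply]
      by_cases hi : i = i₀
      · subst hi
        rw [if_pos rfl, Matrix.updateRow_self, hdf0, Finset.sum_apply]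
        rfl
      · rw [if_neg hi, Matrix.updateRow_ne hi, hdf j i hi, mul_one]
        rfl
    rw [h1, Matrix.det_mul_column, Matrix.det_updateRow_sum, smul_eq_mul, Finset.prod_mul_distrib,
      Finset.prod_const, Finset.card_univ, Fintype.card_fin, Finset.prod_ite_eq' Finset.univ i₀,
      if_pos (Finset.mem_univ _), pow_succ]
  refine
    { fg := fgo_closure h.fg _
      fgB := fgo_closure h.fgB _
      SP := fun s => hPP' (h.SP s)
      pr := fun s hs => hpr hs
      im := ?_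
      zB := ?_
      bd := ?_
      fP := ?_
      f0 := ?_
      gen := ?_
      u0 := mul_ne_zero hwa0 h.u0
      det := ?_ }
  · apply le_antisymm
    · rintro v ⟨y, hy, hyv⟩
      obtain ⟨v', hv', h1⟩ := hpr hy
      change v ∈ B'
      have h2 : v = v' := Pr.unique hyv h1
      rwa [h2]
    · change B' ≤ im p.φ P'
      rw [hB', Subring.closure_le]
      rintro t (ht | ⟨j, rfl⟩)
      · have h1 : t ∈ im p.φ p.P := by rw [h.im]; exact ht
        obtain ⟨y, hy, hyt⟩ := h1
        exact ⟨y, hPP' hy, hyt⟩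
      · exact ⟨x j / z, Subring.subset_closure (Or.inr ⟨j, rfl⟩), hxd j⟩
  · intro i hi
    change Function.update p.z n e i ∈ B' ∧ Function.update p.z n e i ≠ 0
    by_cases hin : i = n
    · subst hin
      rw [Function.update_self]
      exact ⟨hBB' heB, hl⟩
    · rw [Function.update_of_ne hin]
      have := h.zB i (by omega)
      exact ⟨hBB' this.1, this.2⟩
  · intro j
    rw [hZ]
    have hle : P' ≤ BR (FractionRing S) B' (p.hD j) (p.Z n * e) := by
      rw [hP', Subring.closure_le]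
      rintro t (ht | ⟨k, rfl⟩)
      · obtain ⟨v, hv, h1⟩ := h.pr t ht
        refine ⟨v, hBB' hv, h1, ?_⟩
        have h2 := h.bd j t ht
        have h3 : p.Z n * e * dd p.φ (p.D j) t = e * (p.Z n * dd p.φ (p.D j) t) := by ring
        rw [h3]
        exact B'.mul_mem (hBB' heB) (hBB' h2)
      · refine ⟨w k / e, Subring.subset_closure (Or.inr ⟨k, rfl⟩), hxd k, ?_⟩
        have h2 := h.bd j (x k) (H.xP k)
        have h2' := h.bd j z (H.xP l)
        have h3 : dd p.φ (p.D j) (x k / z) =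
            w k * -(e⁻¹ * e⁻¹ * dd p.φ (p.D j) z) + e⁻¹ * dd p.φ (p.D j) (x k) := by
          rw [div_eq_mul_inv, dd_mul (p.hD j) (H.xw k) hzi, dd_inv (p.hD j) hze hl]
        rw [h3]
        have h4 : p.Z n * e * (w k * -(e⁻¹ * e⁻¹ * dd p.φ (p.D j) z) + e⁻¹ * dd p.φ (p.D j) (x k)) =
            p.Z n * dd p.φ (p.D j) (x k) - w k / e * (p.Z n * dd p.φ (p.D j) z) := by
          field_simp
          ring
        rw [h4]
        exact B'.sub_mem (hBB' h2) (B'.mul_mem (Subring.subset_closure (Or.inr ⟨k, rfl⟩)) (hBB' h2'))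
    intro s hs
    obtain ⟨v, hv, h1, h2⟩ := hle hs
    exact h2
  · intro i
    change f' i ∈ P'
    by_cases hi : i = i₀
    · rw [hi, hf'i0]
      have ha2 := H.N2
      rw [pow_two] at ha2
      rw [hNF]
      refine Submodule.mul_induction_on ha2 ?_ ?_
      · intro b hb c hc
        have h2 : ((b * c : p.P) : FractionRing S) * (z⁻¹ * z⁻¹) =
            ((b : FractionRing S) * z⁻¹) * ((c : FractionRing S) * z⁻¹) := by
          change (b : FractionRing S) * (c : FractionRing S) * (z⁻¹ * z⁻¹) = _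
          ring
        rw [h2]
        exact P'.mul_mem (hdiv b ((mem_P_iff h 𝔭 b).1 hb)) (hdiv c ((mem_P_iff h 𝔭 c).1 hc))
      · intro b c hb hc
        have h2 : ((b + c : p.P) : FractionRing S) * (z⁻¹ * z⁻¹) = (b : FractionRing S) * (z⁻¹ * z⁻¹) +
            (c : FractionRing S) * (z⁻¹ * z⁻¹) := by
          change ((b : FractionRing S) + (c : FractionRing S)) * (z⁻¹ * z⁻¹) = _
          ring
        rw [h2]
        exact P'.add_mem hb hc
    · rw [hf'i i hi]
      exact hdiv ⟨p.f i, h.fP i⟩ ⟨0, 𝔭.zero_mem, h.f0 i⟩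
  · intro i
    change Pr p.φ (f' i) 0
    by_cases hi : i = i₀
    · rw [hi, hf'i0]
      have h1 := hNF0.mul (hzi.mul hzi)
      rwa [zero_mul] at h1
    · rw [hf'i i hi]
      have h1 := (h.f0 i).mul hzi
      rwa [zero_mul] at h1
  · intro y hy
    obtain ⟨g, hg, hyg⟩ := h.gen y hy
    choose wg hwg using hg
    have hai : Pr p.φ (a i₀)⁻¹ (wa : F)⁻¹ := H.hwa.inv hwa0
    let g' : Fin p.r → FractionRing S := fun i => if i = i₀ then g i₀ * (a i₀)⁻¹ * (z * z) else
      g i * z - g i₀ * (a i₀)⁻¹ * (a i) * z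
    refine ⟨g', ?_, ?_⟩
    · have hgg : ∀ i : Fin p.r, ∃ v, Pr p.φ (g' i) v := by
        intro i
        change ∃ v, Pr p.φ (if i = i₀ then g i₀ * (a i₀)⁻¹ * (z * z) else
          g i * z - g i₀ * (a i₀)⁻¹ * (a i) * z) v
        by_cases hi : i = i₀
        · rw [if_pos hi]
          exact ⟨_, ((hwg i₀).mul hai).mul (hze.mul hze)⟩
        · rw [if_neg hi, sub_eq_add_neg]
          exact ⟨_, ((hwg i).mul hze).add ((((hwg i₀).mul hai).mul (hva i)).mul hze).neg⟩
      exact hgg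
    · have key : ∀ q : Fin p.r → FractionRing S, ∑ i, q i = q i₀ + ∑ i ∈ Finset.univ.erase i₀, q i := fun q =>
        (Finset.add_sum_erase _ _ (Finset.mem_univ i₀)).symm
      change y = ∑ i, g' i * f' i
      change y = ∑ i, (if i = i₀ then g i₀ * (a i₀)⁻¹ * (z * z) else
        g i * z - g i₀ * (a i₀)⁻¹ * (a i) * z) * f' i
      rw [hyg, key, key (fun i => (if i = i₀ then g i₀ * (a i₀)⁻¹ * (z * z) else
        g i * z - g i₀ * (a i₀)⁻¹ * (a i) * z) * f' i)]
      rw [if_pos rfl, hf'i0]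
      have h1 : ∑ i ∈ Finset.univ.erase i₀, (if i = i₀ then g i₀ * (a i₀)⁻¹ * (z * z) else
          g i * z - g i₀ * (a i₀)⁻¹ * (a i) * z) * f' i =
          ∑ i ∈ Finset.univ.erase i₀, g i * p.f i - g i₀ * (a i₀)⁻¹ *
            ∑ i ∈ Finset.univ.erase i₀, (a i) * p.f i := by
        rw [Finset.mul_sum, ← Finset.sum_sub_distrib]
        refine Finset.sum_congr rfl fun i hi => ?_
        have hi' : i ≠ i₀ := (Finset.mem_erase.1 hi).1
        rw [if_neg hi', hf'i i hi']
        field_simp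
      rw [h1]
      have h2 : NF = (a i₀) * p.f i₀ + ∑ i ∈ Finset.univ.erase i₀, (a i) * p.f i := by
        rw [hNF, H.N1, key]
      rw [h2]
      field_simp
      ring
  · rw [hZ]
    change (Matrix.of fun i j => dd p.φ (p.D j) (f' i)).det * (p.Z n * e) ^ (p.r + 1) = (wa : F) * p.u * p.dl
    rw [hdet, mul_pow, hva0]
    have h1 := h.det
    have h2 : e⁻¹ ^ (p.r + 1) * e ^ (p.r + 1) = 1 := by
      rw [← mul_pow, inv_mul_cancel₀ hl, one_pow]
    calc e⁻¹ ^ (p.r + 1) * ((wa : F) * (Matrix.of fun i j => dd p.φ (p.D j) (p.f i)).det) *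
          (p.Z n ^ (p.r + 1) * e ^ (p.r + 1))
        = (e⁻¹ ^ (p.r + 1) * e ^ (p.r + 1)) * ((wa : F) * ((Matrix.of fun i j => dd p.φ (p.D j) (p.f i)).det *
          p.Z n ^ (p.r + 1))) := by ring
      _ = (wa : F) * p.u * p.dl := by
        rw [h2, h1]
        ring

end step

end Pool.Agent.Run7.h56.RB
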